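import Pool.Agent.H121.GA.IfB
import Pool.Agent.H304.Z987.Green

/-!
# Project GA, part RUA: the resolvent of `T + V` for an unbounded potential `V`
-/

set_option autoImplicit false

open scoped BigOperators InnerProductSpace Topology
open Filter MeasureTheory

namespace Pool.Agent.H155.GA

open Pool.Agent.Y662.TR
open Pool.Agent.TH369.AN (Rz rz_eq rz_uniq rz_norm)
open Pool.Agent.H987.Z (Rs Gr)
open Pool.Agent.H304.Z987 (rz_sub')
open Pool.Agent.H121.GA

variable {ι : Type}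

/-- the adjoint of the resolvent -/
theorem rz_adj (A : LL ι →L[ℂ] LL ι) (hA : IsSelfAdjoint A) (z : ℂ) (hz : z.im ≠ 0)
    (g h : LL ι) : ⟪g, Rz A z h⟫_ℂ = ⟪Rz A (starRingEnd ℂ z) g, h⟫_ℂ := by
  have hz' : (starRingEnd ℂ z).im ≠ 0 := by
    rw [Complex.conj_im]; exact neg_ne_zero.2 hz
  obtain ⟨u, hu⟩ : ∃ u, u = Rz A z h := ⟨_, rfl⟩
  obtain ⟨w, hw⟩ : ∃ w, w = Rz A (starRingEnd ℂ z) g := ⟨_, rfl⟩
  have h1 : A u - z • u = h := by rw [hu]; exact rz_eq A hA z hz h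
  have h2 : A w - (starRingEnd ℂ z) • w = g := by rw [hw]; exact rz_eq A hA _ hz' g
  have hs : ⟪A w, u⟫_ℂ = ⟪w, A u⟫_ℂ :=
    (ContinuousLinearMap.isSelfAdjoint_iff_isSymmetric.1 hA) w u
  rw [← hu, ← hw, ← h1, ← h2, inner_sub_left, inner_sub_right, inner_smul_left,
    inner_smul_right, hs, Complex.conj_conj]

theorem HW_sa (T : LL ι →L[ℂ] LL ι) (hT : Rs T) (b : ℝ) (V : ι → ℝ) :
    IsSelfAdjoint (HW T b V) := hT.sa.add (Mw_sa b V)

/-- the constant -/
noncomputable def Lc (T : LL ι →L[ℂ] LL ι) (z : ℂ) : ℝ := 1 + (‖z‖ + ‖T‖) / |z.im|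

theorem Lc_pos (T : LL ι →L[ℂ] LL ι) (z : ℂ) : 0 < Lc T z := by
  unfold Lc; positivity

theorem Lc_conj (T : LL ι →L[ℂ] LL ι) (z : ℂ) : Lc T (starRingEnd ℂ z) = Lc T z := by
  unfold Lc
  rw [Complex.norm_conj, Complex.conj_im, abs_neg]

theorem Mw_rz_le (T : LL ι →L[ℂ] LL ι) (hT : Rs T) (b : ℝ) (V : ι → ℝ) (z : ℂ)
    (hz : z.im ≠ 0) (f : LL ι) : ‖Mw b V (Rz (HW T b V) z f)‖ ≤ Lc T z * ‖f‖ := by
  have h1 := rz_eq _ (HW_sa T hT b V) z hz f
  have h2 := rz_norm _ (HW_sa T hT b V) z hz f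
  obtain ⟨u, hu⟩ : ∃ u, u = Rz (HW T b V) z f := ⟨_, rfl⟩
  rw [← hu] at h1 h2 ⊢
  have h3 : Mw b V u = f + z • u - T u := by
    have : HW T b V u = T u + Mw b V u := rfl
    rw [this] at h1
    rw [← h1]; abel
  rw [h3]
  calc ‖f + z • u - T u‖ ≤ (‖f‖ + ‖z‖ * ‖u‖) + ‖T‖ * ‖u‖ := by
        refine (norm_sub_le _ _).trans ?_
        refine add_le_add ?_ (T.le_opNorm u)
        refine (norm_add_le _ _).trans ?_
        rw [norm_smul]
    _ = ‖f‖ + (‖z‖ + ‖T‖) * ‖u‖ := by ring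
    _ ≤ ‖f‖ + (‖z‖ + ‖T‖) * (‖f‖ / |z.im|) := by gcongr
    _ = Lc T z * ‖f‖ := by unfold Lc; ring

/-! ### clipping -/

theorem clp_gt {b t : ℝ} (hb : 0 < b) (h : b < |t|) : |clp b t| = b := by
  unfold clp
  rw [abs_of_pos hb]
  rcases lt_abs.1 h with h1 | h1
  · rw [min_eq_left h1.le, max_eq_right (by linarith), abs_of_pos hb]
  · rw [min_eq_right (by linarith), max_eq_left (by linarith), abs_neg, abs_of_pos hb]

theorem clp_sub_le {b b' : ℝ} (hb : 0 < b) (hbb : b ≤ b') (t : ℝ) :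
    |clp b' t - clp b t| ≤ |clp b' t| := by
  have hb' : 0 < b' := hb.trans_le hbb
  unfold clp
  rw [abs_of_pos hb, abs_of_pos hb']
  rcases le_total 0 t with h | h
  · have e1 : max (-b) (min b t) = min b t := max_eq_right (by
      have : 0 ≤ min b t := le_min hb.le h
      linarith)
    have e2 : max (-b') (min b' t) = min b' t := max_eq_right (by
      have : 0 ≤ min b' t := le_min hb'.le h
      linarith)
    have e3 : 0 ≤ min b t := le_min hb.le h
    have e4 : min b t ≤ min b' t := min_le_min_right t hbb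
    rw [e1, e2, abs_of_nonneg (by linarith), abs_of_nonneg (by linarith)]
    linarith
  · have e1 : min b t = t := min_eq_right (by linarith)
    have e2 : min b' t = t := min_eq_right (by linarith)
    have e3 : max (-b) t ≤ 0 := max_le (by linarith) h
    have e4 : max (-b') t ≤ max (-b) t := max_le_max_right t (by linarith)
    rw [e1, e2, abs_of_nonpos (by linarith), abs_of_nonpos (by linarith)]
    linarith

theorem ll_norm_mono {u v : LL ι} (h : ∀ x, ‖u x‖ ≤ ‖v x‖) : ‖u‖ ≤ ‖v‖ := by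
  have h1 := hasSum_le (fun x => pow_le_pow_left₀ (norm_nonneg _) (h x) 2) (ll_sum u) (ll_sum v)
  exact (pow_le_pow_iff_left₀ (norm_nonneg _) (norm_nonneg _) two_ne_zero).1 h1

theorem inner_D_le {b b' : ℝ} (hb : 0 < b) (hbb : b ≤ b') (V : ι → ℝ) (w v : LL ι) :
    ‖⟪w, Mw b' V v - Mw b V v⟫_ℂ‖ ≤ (‖Mw b V w‖ / b) * ‖Mw b' V v‖ := by
  classical
  have hb' : 0 < b' := hb.trans_le hbb
  -- the truncation of `w`
  have hpt : ∀ x, ‖(if |V x| ≤ b then (0 : ℂ) else w x)‖ ^ 2 ≤ ‖Mw b V w x‖ ^ 2 / b ^ 2 := by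
    intro x
    split_ifs with h
    · rw [norm_zero, zero_pow two_ne_zero]; positivity
    · rw [Mw_apply, norm_mul, Complex.norm_real, Real.norm_eq_abs, clp_gt hb (not_le.1 h)]
      have : (b * ‖w x‖) ^ 2 / b ^ 2 = ‖w x‖ ^ 2 := by field_simp
      rw [this]
  have hsum : HasSum (fun x => ‖Mw b V w x‖ ^ 2 / b ^ 2) (‖Mw b V w‖ ^ 2 / b ^ 2) :=
    (ll_sum (Mw b V w)).div_const _
  have hsm : Summable fun x => ‖(if |V x| ≤ b then (0 : ℂ) else w x)‖ ^ 2 :=
    Summable.of_nonneg_of_le (fun x => by positivity) hpt hsum.summable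
  set w' : LL ι := lmk (fun x => if |V x| ≤ b then (0 : ℂ) else w x) hsm with hw'
  have hw'n : ‖w'‖ ≤ ‖Mw b V w‖ / b := by
    refine lmk_le _ hsm _ (by positivity) ?_
    refine (hsm.tsum_le_tsum hpt hsum.summable).trans (le_of_eq ?_)
    rw [hsum.tsum_eq, div_pow]
  have hin : ⟪w, Mw b' V v - Mw b V v⟫_ℂ = ⟪w', Mw b' V v - Mw b V v⟫_ℂ := by
    refine (ll_inner w (Mw b' V v - Mw b V v)).unique ?_
    have h := ll_inner w' (Mw b' V v - Mw b V v)
    have h2 : (fun x => (starRingEnd ℂ) (w' x) * (Mw b' V v - Mw b V v : LL ι) x) =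
        fun x => (starRingEnd ℂ) (w x) * (Mw b' V v - Mw b V v : LL ι) x := by
      funext x
      rw [hw', lmk_apply]
      by_cases h : |V x| ≤ b
      · rw [if_pos h, sub_coord, Mw_apply, Mw_apply,
          clp_eq (B := b) (by rw [abs_of_pos hb]; exact h),
          clp_eq (B := b') (by rw [abs_of_pos hb']; exact h.trans hbb)]
        simp
      · rw [if_neg h]
    rw [h2] at h
    exact h
  have hD : ‖Mw b' V v - Mw b V v‖ ≤ ‖Mw b' V v‖ := by
    refine ll_norm_mono fun x => ?_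
    rw [sub_coord, Mw_apply, Mw_apply, ← sub_mul, norm_mul, norm_mul, ← Complex.ofReal_sub,
      Complex.norm_real, Complex.norm_real, Real.norm_eq_abs, Real.norm_eq_abs]
    exact mul_le_mul_of_nonneg_right (clp_sub_le hb hbb (V x)) (norm_nonneg _)
  rw [hin]
  refine (norm_inner_le_norm _ _).trans ?_
  exact mul_le_mul hw'n hD (norm_nonneg _) (by positivity)

/-- the resolvents for two clip levels -/
theorem rz_clip_le (T : LL ι →L[ℂ] LL ι) (hT : Rs T) {b b' : ℝ} (hb : 0 < b) (hbb : b ≤ b')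
    (V : ι → ℝ) (z : ℂ) (hz : z.im ≠ 0) :
    ‖Rz (HW T b V) z - Rz (HW T b' V) z‖ ≤ Lc T z ^ 2 / b := by
  have hL := Lc_pos T z
  refine ContinuousLinearMap.opNorm_le_bound _ (by positivity) fun f => ?_
  have hz' : (starRingEnd ℂ z).im ≠ 0 := by
    rw [Complex.conj_im]; exact neg_ne_zero.2 hz
  have h0 : (Rz (HW T b V) z - Rz (HW T b' V) z) f = Rz (HW T b V) z f - Rz (HW T b' V) z f := rfl
  rw [h0]
  have h1 := rz_sub' _ (HW_sa T hT b V) _ (HW_sa T hT b' V) z hz f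
  obtain ⟨d, hd⟩ : ∃ d, d = Rz (HW T b V) z f - Rz (HW T b' V) z f := ⟨_, rfl⟩
  obtain ⟨v, hv⟩ : ∃ v, v = Rz (HW T b' V) z f := ⟨_, rfl⟩
  have hvn : ‖Mw b' V v‖ ≤ Lc T z * ‖f‖ := by rw [hv]; exact Mw_rz_le T hT b' V z hz f
  have h2 : HW T b' V v - HW T b V v = Mw b' V v - Mw b V v := by
    change (T v + Mw b' V v) - (T v + Mw b V v) = _
    abel
  have h3 : d = Rz (HW T b V) z (Mw b' V v - Mw b V v) := by
    rw [hd, h1, ← hv, h2]
  have h4 : ‖d‖ ^ 2 ≤ (Lc T z * ‖d‖ / b) * (Lc T z * ‖f‖) := by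
    have h5 : ‖⟪d, d⟫_ℂ‖ = ‖d‖ ^ 2 := by
      rw [inner_self_eq_norm_sq_to_K]
      simp
    rw [← h5]
    conv_lhs =>
      rw [show ⟪d, d⟫_ℂ = ⟪d, Rz (HW T b V) z (Mw b' V v - Mw b V v)⟫_ℂ by rw [← h3]]
    rw [rz_adj _ (HW_sa T hT b V) z hz]
    refine (inner_D_le hb hbb V _ v).trans ?_
    have h6 : ‖Mw b V (Rz (HW T b V) (starRingEnd ℂ z) d)‖ ≤ Lc T z * ‖d‖ := by
      have := Mw_rz_le T hT b V _ hz' d
      rwa [Lc_conj] at this
    gcongr
  rw [← hd]
  rcases eq_or_lt_of_le (norm_nonneg d) with h5 | h5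
  · rw [← h5]; positivity
  · have h6 : ‖d‖ * ‖d‖ ≤ (Lc T z ^ 2 / b * ‖f‖) * ‖d‖ := by
      calc ‖d‖ * ‖d‖ = ‖d‖ ^ 2 := by ring
        _ ≤ _ := h4
        _ = _ := by ring
    exact le_of_mul_le_mul_right h6 h5

theorem ru_tendsto (T : LL ι →L[ℂ] LL ι) (hT : Rs T) (V : ι → ℝ) (z : ℂ) (hz : z.im ≠ 0) :
    Tendsto (fun n : ℕ => Rz (HW T (n : ℝ) V) z) atTop (𝓝 (RU T V z)) := by
  have hc : CauchySeq (fun n : ℕ => Rz (HW T (n : ℝ) V) z) := by
    rw [Metric.cauchySeq_iff']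
    intro ε hε
    obtain ⟨N, hN⟩ := exists_nat_gt (Lc T z ^ 2 / ε)
    refine ⟨N + 1, fun n hn => ?_⟩
    rw [dist_comm, dist_eq_norm]
    have h1 : (0 : ℝ) < ((N + 1 : ℕ) : ℝ) := by positivity
    refine (rz_clip_le T hT h1 (by exact_mod_cast hn) V z hz).trans_lt ?_
    rw [div_lt_iff₀ h1]
    rw [div_lt_iff₀ hε] at hN
    push_cast
    nlinarith
  obtain ⟨R, hR⟩ := cauchySeq_tendsto_of_complete hc
  exact tendsto_nhds_limUnder ⟨R, hR⟩

theorem ruA : S_ruA := by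
  intro ι T hT V z hz
  have hlim := ru_tendsto T hT V z hz
  have hpt : ∀ (f : LL ι) (x : ι), T (RU T V z f) x + ((V x : ℝ) : ℂ) * RU T V z f x -
      z * RU T V z f x = f x := by
    intro f x
    have h1 : Tendsto (fun n : ℕ => Rz (HW T (n : ℝ) V) z f) atTop (𝓝 (RU T V z f)) :=
      ((ContinuousLinearMap.apply ℂ (LL ι) f).continuous.tendsto _).comp hlim
    have h2 : Tendsto (fun n : ℕ => (Rz (HW T (n : ℝ) V) z f) x) atTop (𝓝 (RU T V z f x)) :=
      ((ev x).continuous.tendsto _).comp h1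
    have h3 : Tendsto (fun n : ℕ => T (Rz (HW T (n : ℝ) V) z f) x) atTop
        (𝓝 (T (RU T V z f) x)) :=
      (((ev x).comp T).continuous.tendsto _).comp h1
    have h4 := (h3.add (h2.const_mul ((V x : ℝ) : ℂ))).sub (h2.const_mul z)
    refine tendsto_nhds_unique (h4.congr' ?_) tendsto_const_nhds
    obtain ⟨N, hN⟩ := exists_nat_ge |V x|
    filter_upwards [eventually_ge_atTop N] with n hn
    have h5 := rz_eq _ (HW_sa T hT (n : ℝ) V) z hz f
    have h6 : T (Rz (HW T (n : ℝ) V) z f) x + Mw (n : ℝ) V (Rz (HW T (n : ℝ) V) z f) x -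
        z * (Rz (HW T (n : ℝ) V) z f) x = f x := by
      conv_rhs => rw [← h5]
      rfl
    rw [← h6, Mw_apply, clp_eq (B := (n : ℝ)) (by
      rw [Nat.abs_cast]
      exact hN.trans (by exact_mod_cast hn))]
  refine ⟨fun b hb => ?_, hlim, hpt, fun f u hu => ?_⟩
  · have h1 : Tendsto (fun n : ℕ => ‖Rz (HW T b V) z - Rz (HW T (n : ℝ) V) z‖) atTop
        (𝓝 ‖Rz (HW T b V) z - RU T V z‖) := (tendsto_const_nhds.sub hlim).norm
    refine le_of_tendsto h1 ?_
    obtain ⟨N, hN⟩ := exists_nat_ge b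
    filter_upwards [eventually_ge_atTop N] with n hn
    exact rz_clip_le T hT hb (hN.trans (by exact_mod_cast hn)) V z hz
  · -- uniqueness
    obtain ⟨w, hw⟩ : ∃ w, w = u - RU T V z f := ⟨_, rfl⟩
    have h1 : ∀ x, T w x + ((V x : ℝ) : ℂ) * w x - z * w x = 0 := by
      intro x
      have h2 := hu x
      have h3 := hpt f x
      have h4 : T w x = T u x - T (RU T V z f) x := by
        rw [hw, map_sub]; rfl
      have h5 : w x = u x - RU T V z f x := by rw [hw]; rfl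
      rw [h4, h5]
      linear_combination h2 - h3
    have h2 : HasSum (fun x => (starRingEnd ℂ) (w x) * (z • w - T w : LL ι) x)
        ⟪w, z • w - T w⟫_ℂ := ll_inner w (z • w - T w)
    have h3 : ∀ x, ((starRingEnd ℂ) (w x) * (z • w - T w : LL ι) x).im = 0 := by
      intro x
      have h4 : (z • w - T w : LL ι) x = ((V x : ℝ) : ℂ) * w x := by
        rw [sub_coord, smul_coord]
        linear_combination -(h1 x)
      rw [h4]
      have h5 : (starRingEnd ℂ) (w x) * (((V x : ℝ) : ℂ) * w x) =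
          (((V x) * Complex.normSq (w x) : ℝ) : ℂ) := by
        rw [Complex.ofReal_mul, ← Complex.mul_conj]
        ring
      rw [h5, Complex.ofReal_im]
    have h4 : (⟪w, z • w - T w⟫_ℂ).im = 0 := by
      have h5 := Complex.hasSum_im h2
      simp only [h3] at h5
      exact h5.unique hasSum_zero
    have h5 : (⟪w, T w⟫_ℂ).im = 0 := by
      have hs : ⟪T w, w⟫_ℂ = ⟪w, T w⟫_ℂ :=
        (ContinuousLinearMap.isSelfAdjoint_iff_isSymmetric.1 hT.sa) w w
      have h6 := congrArg Complex.im hs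
      rw [← inner_conj_symm, Complex.conj_im] at h6
      linarith
    have h6 : (⟪w, w⟫_ℂ) = ((‖w‖ ^ 2 : ℝ) : ℂ) := by
      rw [inner_self_eq_norm_sq_to_K]
      simp
    rw [inner_sub_right, inner_smul_right, h6, Complex.sub_im, h5, sub_zero, Complex.mul_im,
      Complex.ofReal_re, Complex.ofReal_im, mul_zero, zero_add] at h4
    have h7 : ‖w‖ ^ 2 = 0 := (mul_eq_zero.1 h4).resolve_left hz
    have h8 : w = 0 := by
      rw [← norm_eq_zero]
      exact pow_eq_zero_iff two_ne_zero |>.1 h7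
    rw [hw] at h8
    exact sub_eq_zero.1 h8

end Pool.Agent.H155.GA
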